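import Pool.Agent.BAR.GammaS
import Pool.Agent.NUCR.Target
import Pool.Agent.NUGC.LegAll

/-!
Honeycomb lattice: the exponent gamma = 43 / 32 from above. The number a n of the n-step self-avoiding walks satisfies
sum over k <= n of a k mu ^ (-k) <= C n ^ (43 / 32 + eps) and a n <= C n ^ (11 / 16 + eps) mu ^ n for all n, and
a k <= k ^ (11 / 32 + eps) mu ^ k outside a set of k of density 0.
-/

set_option autoImplicit false

namespace Pool.Agent.HeldD98.GammaUpper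

open Filter

open scoped Topology

theorem result :
    ∀ Adj : ℤ × ℤ → ℤ × ℤ → Prop,
      Adj = (fun p q : ℤ × ℤ =>
          q - p = (1, 0) ∨ q - p = (-1, 0) ∨
          (q - p = (0, 1) ∧ Even (p.1 + p.2)) ∨
          (q - p = (0, -1) ∧ Even (q.1 + q.2))) →
    ∀ a : ℕ → ℕ,
      (∀ n : ℕ, a n = Set.ncard {f : Fin (n + 1) → ℤ × ℤ |
          f 0 = 0 ∧ Function.Injective f ∧
          ∀ i : Fin n, Adj (f i.castSucc) (f i.succ)}) →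
    ∀ μ : ℝ,
      μ = (⨅ n : {n : ℕ // 1 ≤ n}, ((a n.1 : ℝ) ^ ((1 : ℝ) / (n.1 : ℝ)))) →
    (∀ ε : ℝ, 0 < ε → ∃ C : ℝ, 0 < C ∧ ∀ n : ℕ, 1 ≤ n →
      ∑ k ∈ Finset.range (n + 1), (a k : ℝ) / μ ^ k ≤ C * (n : ℝ) ^ ((43 : ℝ) / 32 + ε) ∧
      (a n : ℝ) ≤ C * (n : ℝ) ^ ((11 : ℝ) / 16 + ε) * μ ^ n) ∧
    (∀ ε : ℝ, 0 < ε → Tendsto (fun n : ℕ =>
      (((Finset.range n).filter (fun k : ℕ => (k : ℝ) ^ ((11 : ℝ) / 32 + ε) * μ ^ k < a k)).card : ℝ) / n)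
        atTop (𝓝 0)) := by
  intro Adj hAdj a ha μ hμ
  have h1 : a = HexObs.aB := by
    funext n
    rw [ha n, hAdj]
    rfl
  have h2 : μ = HexObs.muB := by
    rw [hμ, h1]
    rfl
  subst hAdj
  rw [h1, h2]
  obtain ⟨h3, h4⟩ := HexObs.BAR.gamma_all NUGC.hUp (NUI.numUp_of_target NUCR.target)
    (NUI.nfLow_of_target Pool.Agent.NUNC.windUp NUCR.target)
  refine ⟨fun ε hε => ?_, h4⟩
  obtain ⟨C, hC, h⟩ := h3 ε hε
  exact ⟨C, hC, fun n hn => (h n hn).2⟩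

end Pool.Agent.HeldD98.GammaUpper
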